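import Pool.Agent.H7.Butterfly

set_option autoImplicit false

namespace Pool.Agent.Results.MP_a20f66_co.Alternating

/-- The alternating orientation of `C₄` is not Eulerian-avoidable (already for `k = 2`). -/
theorem result (d : ℕ) : ∃ (V : Type) (_ : Fintype V) (_ : Nonempty V) (D : V → V → Prop),
    (∀ v, ¬ D v v) ∧ (∀ v, {w | D v w}.ncard = {w | D w v}.ncard) ∧
    (∀ v, d ≤ {w | D v w}.ncard) ∧
    ∀ (S : Set V) (H : V → V → Prop), S.Nonempty → (∀ u v, H u v → D u v ∧ u ∈ S ∧ v ∈ S) →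
      (∀ u ∈ S, 2 ≤ {w | H u w}.ncard) →
      ∃ u u' v v' : V, [u, u', v, v'].Nodup ∧ H u v ∧ H u v' ∧ H u' v ∧ H u' v' := by
  refine ⟨H7.Butterfly.W (d + 1) ((d + 1) * (d + 1)), inferInstance, ⟨Sum.inl 0⟩,
    H7.Butterfly.adj _ _, H7.Butterfly.loopless _ _, H7.Butterfly.eulerian _ _,
    fun v => le_trans (Nat.le_succ d) (H7.Butterfly.outdeg _ _ (by positivity) v), ?_⟩
  intro S H hS hH h2
  obtain ⟨u, u', v, v', h1, h3, a, b, c, e⟩ := H7.Butterfly.main _ _ Nat.lt_two_pow_self S H hS hH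
    (fun u hu => by
      obtain ⟨v, w, hv, hw, hvw⟩ := (Set.one_lt_ncard_iff (Set.toFinite _)).1 (h2 u hu)
      exact ⟨v, w, hvw, hv, hw⟩)
  have ne : ∀ x y, H x y → x ≠ y := fun x y h e =>
    H7.Butterfly.loopless _ _ y (e ▸ (hH x y h).1)
  refine ⟨u, u', v, v', ?_, a, b, c, e⟩
  simp [h1, h3, ne _ _ a, ne _ _ b, ne _ _ c, ne _ _ e]

end Pool.Agent.Results.MP_a20f66_co.Alternating
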